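import Pool.Agent.Q302.ME.Rec

/-!
# Ultrafilters without small maximal eventually different families: conclusion

Helper file for problem MP_817dae_lc.
-/

namespace Pool.Agent.Q302.ME

open Filter Cardinal

/-- `I` is a proper ideal on `ω` containing all finite sets. -/
def IsIdealOn (I : Set (Set ℕ)) : Prop :=
  (∀ A ∈ I, ∀ B ⊆ A, B ∈ I) ∧ (∀ A ∈ I, ∀ B ∈ I, A ∪ B ∈ I) ∧ Set.univ ∉ I ∧
    ∀ A : Set ℕ, A.Finite → A ∈ I

/-- `I` is a maximal ideal: a proper ideal contained in no strictly larger proper ideal. -/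
def IsMaximalIdeal (I : Set (Set ℕ)) : Prop :=
  IsIdealOn I ∧ ∀ I', IsIdealOn I' → I ⊆ I' → I' = I

/-- `E` is an `I`-maximal eventually different family. -/
def IsMED (I : Set (Set ℕ)) (E : Set (ℕ → ℕ)) : Prop :=
  (∀ f ∈ E, ∀ g ∈ E, f ≠ g → {n | f n = g n} ∈ I) ∧
    ∀ h : ℕ → ℕ, ∃ f ∈ E, {n | f n = h n} ∉ I

/-- An independent family of `𝔠` functions. -/
theorem exists_independent : ∃ p : (ℕ → Bool) → ℕ → ℕ, Ind p (cofinite : Filter ℕ) ∅ := by
  classical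
  let Ω := Σ k : ℕ, ((Fin k → Bool) → ℕ)
  obtain ⟨q, hq⟩ : ∃ q : ℕ → Ω × ℕ, Function.Surjective q := by
    have : Countable Ω := by
      unfold Ω
      infer_instance
    have : Nonempty Ω := ⟨⟨0, fun _ => 0⟩⟩
    exact exists_surjective_nat _
  refine ⟨fun x n => (q n).1.2 (fun j => x j), ?_⟩
  intro s _ c
  rw [frequently_cofinite_iff_infinite]
  -- separate the points of `s`
  have hsep : ∃ k : ℕ, ∀ x ∈ s, ∀ y ∈ s, (∀ j < k, x j = y j) → x = y := by
    have h1 : ∀ x y : ℕ → Bool, ∃ m : ℕ, x ≠ y → x m ≠ y m := by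
      intro x y
      by_cases hxy : x = y
      · exact ⟨0, fun h => absurd hxy h⟩
      · obtain ⟨m, hm⟩ := Function.ne_iff.1 hxy
        exact ⟨m, fun _ => hm⟩
    choose m hm using h1
    refine ⟨(s ×ˢ s).sup (fun z => m z.1 z.2) + 1, fun x hx y hy hxy => ?_⟩
    by_contra hne
    refine hm x y hne (hxy _ ?_)
    have : m x y ≤ (s ×ˢ s).sup (fun z => m z.1 z.2) :=
      Finset.le_sup (f := fun z : (ℕ → Bool) × (ℕ → Bool) => m z.1 z.2)
        (Finset.mk_mem_product hx hy)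
    omega
  obtain ⟨k, hk⟩ := hsep
  let g : (Fin k → Bool) → ℕ := fun u => if h : ∃ x ∈ s, (fun j : Fin k => x j) = u then c h.choose else 0
  have hg : ∀ x ∈ s, g (fun j => x j) = c x := by
    intro x hx
    have h : ∃ y ∈ s, (fun j : Fin k => y j) = (fun j : Fin k => x j) := ⟨x, hx, rfl⟩
    have h1 : g (fun j => x j) = c h.choose := dif_pos h
    rw [h1]
    congr 1
    apply hk _ h.choose_spec.1 _ hx
    intro j hj
    exact congrFun h.choose_spec.2 ⟨j, hj⟩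
  have hinj : Function.Injective (fun m : ℕ => ((⟨k, g⟩ : Ω), m)) := by
    intro a b hab
    exact (Prod.mk.inj hab).2
  have h2 : (q ⁻¹' (Set.range (fun m : ℕ => ((⟨k, g⟩ : Ω), m)))).Infinite := by
    apply Set.Infinite.preimage (Set.infinite_range_of_injective hinj)
    intro z _
    exact hq z
  refine h2.mono ?_
  rintro n ⟨m, hm⟩ x hx
  have h3 : (q n).1 = ⟨k, g⟩ := by rw [← hm]
  show (q n).1.2 (fun j => x j) = c x
  rw [h3]
  exact hg x hx

theorem main (𝓔 : Set (Set (ℕ → ℕ))) (h𝓔 : #𝓔 ≤ 𝔠) :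
    ∃ I, IsMaximalIdeal I ∧ ∀ E ∈ 𝓔, ¬ IsMED I E := by
  obtain ⟨p, hp⟩ := exists_independent
  -- enumerate `𝓔` in type `𝔠`
  have hW : ∀ w : (Cardinal.ord 𝔠).ToType, #(Set.Iio w) < 𝔠 := fun w => by
    exact Cardinal.mk_Iio_toType_ord_lt w
  obtain ⟨e, he⟩ : ∃ e : (Cardinal.ord 𝔠).ToType → Set (ℕ → ℕ), 𝓔 ⊆ Set.range e := by
    have h1 : #𝓔 ≤ #(Cardinal.ord 𝔠).ToType := by
      rw [Cardinal.mk_ord_toType]
      exact h𝓔
    obtain ⟨i⟩ := h1
    classical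
    refine ⟨fun w => if h : ∃ E : 𝓔, i E = w then (h.choose : Set (ℕ → ℕ)) else ∅, ?_⟩
    intro E hE
    refine ⟨i ⟨E, hE⟩, ?_⟩
    have h : ∃ E' : 𝓔, i E' = i ⟨E, hE⟩ := ⟨_, rfl⟩
    show (if h : ∃ E' : 𝓔, i E' = i ⟨E, hE⟩ then (h.choose : Set (ℕ → ℕ)) else ∅) = E
    rw [dif_pos h]
    have := i.injective h.choose_spec
    rw [this]
  obtain ⟨U, hU, hUE⟩ := core hW (by simp) p cofinite hp e
  refine ⟨{A | Aᶜ ∈ U}, ⟨⟨?_, ?_, ?_, ?_⟩, ?_⟩, ?_⟩
  · intro A hA B hBA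
    exact mem_of_superset hA (Set.compl_subset_compl.2 hBA)
  · intro A hA B hB
    show (A ∪ B)ᶜ ∈ U
    rw [Set.compl_union]
    exact inter_mem hA hB
  · show Set.univᶜ ∉ U
    simp
  · intro A hA
    exact hU hA.compl_mem_cofinite
  · intro I' hI' hle
    apply Set.Subset.antisymm _ hle
    intro A hA
    by_contra hcon
    have h1 : Aᶜ ∉ U := hcon
    rw [Ultrafilter.compl_notMem_iff] at h1
    have h2 : Aᶜ ∈ I' := hle (by show Aᶜᶜ ∈ U; rwa [compl_compl])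
    have h3 := hI'.2.1 A hA _ h2
    rw [Set.union_compl_self] at h3
    exact hI'.2.2.1 h3
  · intro E hE hmed
    obtain ⟨w, rfl⟩ := he hE
    rcases hUE w with ⟨f, hf, g, hg, hne, hev⟩ | ⟨h, hh⟩
    · have h1 : {n | f n = g n}ᶜ ∈ U := hmed.1 f hf g hg hne
      have h2 : {n | f n = g n} ∈ U := hev
      exact (Ultrafilter.compl_notMem_iff.2 h2) h1
    · obtain ⟨f, hf, hfh⟩ := hmed.2 h
      apply hfh
      exact hh f hf

theorem card_borel_le : #{s : Set (ℕ → ℕ) | @MeasurableSet _ (borel (ℕ → ℕ)) s} ≤ 𝔠 := by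
  have h6 : borel (ℕ → ℕ) =
      MeasurableSpace.generateFrom (TopologicalSpace.countableBasis (ℕ → ℕ)) :=
    (TopologicalSpace.isBasis_countableBasis (ℕ → ℕ)).borel_eq_generateFrom
  have h7 := MeasurableSpace.cardinal_measurableSet_le_continuum
    (s := TopologicalSpace.countableBasis (ℕ → ℕ))
    ((TopologicalSpace.countable_countableBasis (ℕ → ℕ)).le_aleph0.trans aleph0_le_continuum)
  rw [← h6] at h7
  exact h7

end Pool.Agent.Q302.ME
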