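import Pool.Agent.Q302.ME.Step

/-!
# Ultrafilters without small maximal eventually different families: the recursion

Helper file for problem MP_817dae_lc.
-/

namespace Pool.Agent.Q302.ME

open Filter Cardinal

variable {Ω J W : Type} [LinearOrder W] [WellFoundedLT W]

/-- One step of the recursion, by choice. -/
noncomputable def stp (p : J → Ω → ℕ) (E : Set (Ω → ℕ)) (x : Filter Ω × Set J) :
    Filter Ω × Set J :=
  open Classical in
  if h : ∃ y : Filter Ω × Set J, y.1 ≤ x.1 ∧ x.2 ⊆ y.2 ∧ (y.2 \ x.2).Finite ∧ Ind p y.1 y.2 ∧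
    Kill y.1 E then h.choose else x

theorem stp_le (p : J → Ω → ℕ) (E : Set (Ω → ℕ)) (x : Filter Ω × Set J) :
    (stp p E x).1 ≤ x.1 ∧ x.2 ⊆ (stp p E x).2 ∧ ((stp p E x).2 \ x.2).Finite := by
  unfold stp
  split_ifs with h
  · exact ⟨h.choose_spec.1, h.choose_spec.2.1, h.choose_spec.2.2.1⟩
  · exact ⟨le_rfl, subset_rfl, by simp⟩

theorem stp_spec (p : J → Ω → ℕ) (E : Set (Ω → ℕ)) (x : Filter Ω × Set J)
    (hI : Ind p x.1 x.2) (hD : ∃ i, i ∉ x.2) :
    Ind p (stp p E x).1 (stp p E x).2 ∧ Kill (stp p E x).1 E := by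
  have h : ∃ y : Filter Ω × Set J, y.1 ≤ x.1 ∧ x.2 ⊆ y.2 ∧ (y.2 \ x.2).Finite ∧ Ind p y.1 y.2 ∧
      Kill y.1 E := by
    obtain ⟨F', h1, D', h2, h3, h4, h5⟩ := step p x.1 x.2 hI hD E
    exact ⟨(F', D'), h1, h2, h3, h4, h5⟩
  unfold stp
  rw [dif_pos h]
  exact ⟨h.choose_spec.2.2.2.1, h.choose_spec.2.2.2.2⟩

omit [LinearOrder W] [WellFoundedLT W] in
theorem neBot_of_ind {p : J → Ω → ℕ} {F : Filter Ω} {D : Set J} (h : Ind p F D) : F.NeBot := by
  refine ⟨fun h0 => ?_⟩
  have := h ∅ (by simp) (fun _ => 0)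
  rw [h0] at this
  exact absurd this frequently_bot

theorem core (hW : ∀ w : W, #(Set.Iio w) < 𝔠) (hJ : 𝔠 ≤ #J) (p : J → Ω → ℕ) (F₀ : Filter Ω)
    (h₀ : Ind p F₀ ∅) (E : W → Set (Ω → ℕ)) :
    ∃ U : Ultrafilter Ω, ↑U ≤ F₀ ∧ ∀ w, Kill (U : Filter Ω) (E w) := by
  -- the recursion
  obtain ⟨G, hG⟩ : ∃ G : W → Filter Ω × Set J, ∀ w,
      G w = stp p (E w) (F₀ ⊓ ⨅ v : Set.Iio w, (G v.1).1, ⋃ v : Set.Iio w, (G v.1).2) := by
    refine ⟨(IsWellFounded.wf : WellFounded ((· < ·) : W → W → Prop)).fix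
      (fun w ih => stp p (E w) (F₀ ⊓ ⨅ v : Set.Iio w, (ih v.1 v.2).1,
        ⋃ v : Set.Iio w, (ih v.1 v.2).2)), fun w => ?_⟩
    rw [WellFounded.fix_eq]
  set FF : W → Filter Ω := fun w => F₀ ⊓ ⨅ v : Set.Iio w, (G v.1).1 with hFF
  set DD : W → Set J := fun w => ⋃ v : Set.Iio w, (G v.1).2 with hDD
  have hG' : ∀ w, G w = stp p (E w) (FF w, DD w) := hG
  have hle1 : ∀ w, (G w).1 ≤ FF w := fun w => by
    rw [hG' w]; exact (stp_le p (E w) (FF w, DD w)).1
  have hle2 : ∀ w, DD w ⊆ (G w).2 := fun w => by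
    rw [hG' w]; exact (stp_le p (E w) (FF w, DD w)).2.1
  have hle3 : ∀ w, ((G w).2 \ DD w).Finite := fun w => by
    rw [hG' w]; exact (stp_le p (E w) (FF w, DD w)).2.2
  have hanti : ∀ v w, v < w → (G w).1 ≤ (G v).1 := by
    intro v w hvw
    refine (hle1 w).trans (inf_le_right.trans ?_)
    exact iInf_le (fun v : Set.Iio w => (G v.1).1) ⟨v, hvw⟩
  have hmono : ∀ v w, v < w → (G v).2 ⊆ DD w := by
    intro v w hvw
    exact Set.subset_iUnion (fun v : Set.Iio w => (G v.1).2) ⟨v, hvw⟩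
  have hle0 : ∀ w, (G w).1 ≤ F₀ := fun w => (hle1 w).trans inf_le_left
  -- cardinality
  have hcard : ∀ w, ∃ i, i ∉ DD w := by
    intro w
    by_contra hcon
    push Not at hcon
    have h1 : (Set.univ : Set J) ⊆ ⋃ v : Set.Iio w, ((G v.1).2 \ DD v.1) := by
      intro i _
      have h2 := hcon i
      rw [hDD] at h2
      simp only [Set.mem_iUnion] at h2
      obtain ⟨v, hv⟩ := h2
      have hne : {u : W | i ∈ (G u).2}.Nonempty := ⟨v.1, hv⟩
      have hmin := (IsWellFounded.wf : WellFounded ((· < ·) : W → W → Prop)).min_mem _ hne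
      set u := (IsWellFounded.wf : WellFounded ((· < ·) : W → W → Prop)).min _ hne with hu
      have huv : ¬ v.1 < u :=
        (IsWellFounded.wf : WellFounded ((· < ·) : W → W → Prop)).not_lt_min _ hv
      rw [Set.mem_iUnion]
      refine ⟨⟨u, lt_of_le_of_lt (not_lt.1 huv) v.2⟩, hmin, ?_⟩
      intro h3
      rw [hDD] at h3
      simp only [Set.mem_iUnion] at h3
      obtain ⟨z, hz⟩ := h3
      exact (IsWellFounded.wf : WellFounded ((· < ·) : W → W → Prop)).not_lt_min _ hz z.2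
    have h2 : #J ≤ #(Set.Iio w) * ℵ₀ := by
      calc #J = #(Set.univ : Set J) := Cardinal.mk_univ.symm
        _ ≤ #(⋃ v : Set.Iio w, ((G v.1).2 \ DD v.1) : Set J) := Cardinal.mk_le_mk_of_subset h1
        _ ≤ Cardinal.sum (fun v : Set.Iio w => #((G v.1).2 \ DD v.1 : Set J)) :=
            Cardinal.mk_iUnion_le_sum_mk
        _ ≤ Cardinal.sum (fun _ : Set.Iio w => ℵ₀) := by
            apply Cardinal.sum_le_sum
            intro v
            exact (hle3 v.1).countable.le_aleph0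
        _ = _ := by simp
    have h3 : #(Set.Iio w) * ℵ₀ < 𝔠 :=
      Cardinal.mul_lt_of_lt aleph0_le_continuum (hW w) aleph0_lt_continuum
    exact absurd (hJ.trans h2) (not_le.2 h3)
  -- independence
  have hdir : ∀ w, ∀ S : Set Ω, S ∈ FF w → S ∈ F₀ ∨ ∃ v < w, S ∈ (G v).1 := by
    intro w S hS
    by_cases hne : Nonempty (Set.Iio w)
    · have h1 : FF w = ⨅ v : Set.Iio w, (G v.1).1 := by
        rw [hFF]
        apply inf_eq_right.2
        obtain ⟨v⟩ := hne
        exact (iInf_le _ v).trans (hle0 v.1)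
      rw [h1] at hS
      have hd : Directed (· ≥ ·) (fun v : Set.Iio w => (G v.1).1) := by
        intro a b
        rcases lt_trichotomy a.1 b.1 with h | h | h
        · exact ⟨b, hanti _ _ h, le_refl _⟩
        · exact ⟨b, le_of_eq (by rw [Subtype.ext h]), le_refl _⟩
        · exact ⟨a, le_refl _, hanti _ _ h⟩
      obtain ⟨v, hv⟩ := (mem_iInf_of_directed hd _).1 hS
      exact Or.inr ⟨v.1, v.2, hv⟩
    · rw [not_nonempty_iff] at hne
      left
      rw [hFF] at hS
      simpa [iInf_of_empty] using hS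
  have hind : ∀ w, Ind p (FF w) (DD w) := by
    intro w
    induction w using WellFoundedLT.induction with
    | ind w ih =>
      intro s hs c hev
      rcases hdir w _ hev with h1 | ⟨v, hv, h1⟩
      · exact h₀ s (by simp) c h1
      · have h2 := (stp_spec p (E v) (FF v, DD v) (ih v hv) (hcard v)).1
        rw [← hG' v] at h2
        exact h2 s (fun i hi h => hs i hi (hmono v w hv h)) c h1
  have hspec : ∀ w, Ind p (G w).1 (G w).2 ∧ Kill (G w).1 (E w) := by
    intro w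
    have := stp_spec p (E w) (FF w, DD w) (hind w) (hcard w)
    rwa [← hG' w] at this
  have hne : ∀ w, (G w).1.NeBot := by
    intro w
    exact neBot_of_ind (hspec w).1
  by_cases hWe : Nonempty W
  · have hd : Directed (· ≥ ·) (fun w : W => (G w).1) := by
      intro a b
      rcases lt_trichotomy a b with h | h | h
      · exact ⟨b, hanti _ _ h, le_refl _⟩
      · exact ⟨b, le_of_eq (by rw [h]), le_refl _⟩
      · exact ⟨a, le_refl _, hanti _ _ h⟩
    have hnb : (⨅ w, (G w).1).NeBot := iInf_neBot_of_directed' hd hne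
    refine ⟨Ultrafilter.of (⨅ w, (G w).1), ?_, ?_⟩
    · obtain ⟨w⟩ := hWe
      exact (Ultrafilter.of_le _).trans ((iInf_le _ w).trans (hle0 w))
    · intro w
      exact (hspec w).2.mono ((Ultrafilter.of_le _).trans (iInf_le _ w))
  · rw [not_nonempty_iff] at hWe
    have hnb : F₀.NeBot := neBot_of_ind h₀
    exact ⟨Ultrafilter.of F₀, Ultrafilter.of_le _, fun w => (hWe.false w).elim⟩

end Pool.Agent.Q302.ME
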