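import Mathlib

/-!
# Ultrafilters without small maximal eventually different families: one step

Helper file for problem MP_817dae_lc.
-/

namespace Pool.Agent.Q302.ME

open Filter

variable {Ω J : Type}

/-- `F` is independent of the coordinates outside `D`: every finite combination
`{n | ∀ i ∈ s, p i n = c i}` with `s` disjoint from `D` is `F`-positive. -/
def Ind (p : J → Ω → ℕ) (F : Filter Ω) (D : Set J) : Prop :=
  ∀ s : Finset J, (∀ i ∈ s, i ∉ D) → ∀ c : J → ℕ, ∃ᶠ n in F, ∀ i ∈ s, p i n = c i

/-- `F` kills `E`. -/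
def Kill (F : Filter Ω) (E : Set (Ω → ℕ)) : Prop :=
  (∃ f ∈ E, ∃ g ∈ E, f ≠ g ∧ ∀ᶠ n in F, f n = g n) ∨
    ∃ h : Ω → ℕ, ∀ f ∈ E, ∀ᶠ n in F, f n ≠ h n

theorem Kill.mono {F F' : Filter Ω} (h : F' ≤ F) {E : Set (Ω → ℕ)} (hE : Kill F E) : Kill F' E := by
  rcases hE with ⟨f, hf, g, hg, hne, he⟩ | ⟨k, hk⟩
  · exact Or.inl ⟨f, hf, g, hg, hne, he.filter_mono h⟩
  · exact Or.inr ⟨k, fun f hf => (hk f hf).filter_mono h⟩

/-- `F` decides: every `F`-positive set contains a finite combination modulo `F`. -/
def Dense (p : J → Ω → ℕ) (F : Filter Ω) (D : Set J) : Prop :=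
  ∀ S : Ω → Prop, (∀ᶠ n in F, ¬ S n) ∨ ∃ s : Finset J, (∀ i ∈ s, i ∉ D) ∧ ∃ c : J → ℕ,
    ∀ᶠ n in F, (∀ i ∈ s, p i n = c i) → S n

theorem exists_dense (p : J → Ω → ℕ) (F : Filter Ω) (D : Set J) (h : Ind p F D) :
    ∃ F' ≤ F, Ind p F' D ∧ Dense p F' D := by
  -- Zorn on the reversed order
  have ih : ∀ c ⊆ {G : (Filter Ω)ᵒᵈ | Ind p (OrderDual.ofDual G) D}, IsChain (· ≤ ·) c →
      ∀ y ∈ c, ∃ ub ∈ {G : (Filter Ω)ᵒᵈ | Ind p (OrderDual.ofDual G) D}, ∀ z ∈ c, z ≤ ub := by
    intro c hc hch y hy
    refine ⟨sSup c, ?_, fun z hz => le_sSup hz⟩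
    intro s hs k
    have h1 : OrderDual.ofDual (sSup c) = ⨅ z : c, OrderDual.ofDual z.1 := by
      rw [sSup_eq_iSup']
      rfl
    rw [h1]
    have : Nonempty c := ⟨⟨y, hy⟩⟩
    intro hev
    have hdir : Directed (· ≥ ·) (fun z : c => OrderDual.ofDual z.1) := by
      intro a b
      rcases hch.total a.2 b.2 with hab | hab
      · exact ⟨b, hab, le_refl _⟩
      · exact ⟨a, le_refl _, hab⟩
    have h2 := (mem_iInf_of_directed hdir _).1 hev
    obtain ⟨z, hz⟩ := h2
    exact hc z.2 s hs k hz
  obtain ⟨M, hM1, hM2⟩ := zorn_le_nonempty₀ _ ih (OrderDual.toDual F) h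
  refine ⟨OrderDual.ofDual M, hM1, hM2.1, ?_⟩
  intro S
  by_cases hI : Ind p (OrderDual.ofDual M ⊓ 𝓟 {n | ¬ S n}) D
  · left
    have h1 : M ≤ OrderDual.toDual (OrderDual.ofDual M ⊓ 𝓟 {n | ¬ S n}) :=
      (inf_le_left : OrderDual.ofDual M ⊓ 𝓟 {n | ¬ S n} ≤ OrderDual.ofDual M)
    have h2 := hM2.2 (show OrderDual.toDual (OrderDual.ofDual M ⊓ 𝓟 {n | ¬ S n}) ∈
      {G : (Filter Ω)ᵒᵈ | Ind p (OrderDual.ofDual G) D} from hI) h1
    have h3 : OrderDual.ofDual M ≤ OrderDual.ofDual M ⊓ 𝓟 {n | ¬ S n} := h2
    exact (h3.trans inf_le_right) (mem_principal_self _)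
  · right
    unfold Ind at hI
    push Not at hI
    obtain ⟨s, hs, c, hc⟩ := hI
    refine ⟨s, hs, c, ?_⟩
    rw [eventually_inf_principal] at hc
    filter_upwards [hc] with n hn h1
    by_contra h2
    obtain ⟨i, hi, hne⟩ := hn h2
    exact hne (h1 i hi)

theorem step (p : J → Ω → ℕ) (F : Filter Ω) (D : Set J) (hI : Ind p F D) (hD : ∃ i, i ∉ D)
    (E : Set (Ω → ℕ)) : ∃ F' ≤ F, ∃ D', D ⊆ D' ∧ (D' \ D).Finite ∧ Ind p F' D' ∧ Kill F' E := by
  classical
  obtain ⟨G, hGF, hG, hdense⟩ := exists_dense p F D hI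
  by_cases h1 : ∃ f ∈ E, ∃ g ∈ E, f ≠ g ∧ ∃ᶠ n in G, f n = g n
  · obtain ⟨f, hf, g, hg, hne, hfr⟩ := h1
    rcases hdense (fun n => f n = g n) with h2 | ⟨s, hs, c, hc⟩
    · exact absurd h2 hfr
    · refine ⟨G ⊓ 𝓟 {n | ∀ i ∈ s, p i n = c i}, inf_le_left.trans hGF, D ∪ s,
        Set.subset_union_left, ?_, ?_, Or.inl ⟨f, hf, g, hg, hne, ?_⟩⟩
      · exact (s.finite_toSet).subset (by intro i hi; rcases hi.1 with h | h; exact absurd h hi.2; exact h)
      · intro s' hs' c' hev
        rw [eventually_inf_principal] at hev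
        refine hG (s ∪ s') ?_ (fun i => if i ∈ s then c i else c' i) ?_
        · intro i hi
          rcases Finset.mem_union.1 hi with h | h
          · exact hs i h
          · exact fun h' => hs' i h (Or.inl h')
        · filter_upwards [hev] with n hn hall
          refine hn ?_ ?_
          · intro i hi
            have := hall i (Finset.mem_union_left _ hi)
            rwa [if_pos hi] at this
          · intro i hi
            have := hall i (Finset.mem_union_right _ hi)
            have hni : i ∉ s := fun h => hs' i hi (Or.inr h)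
            rwa [if_neg hni] at this
      · rw [eventually_inf_principal]
        exact hc
  · push Not at h1
    by_cases hfin : E.Finite
    · refine ⟨G, hGF, D, subset_rfl, by simp, hG, Or.inr ⟨fun n => (∑ f ∈ hfin.toFinset, f n) + 1, ?_⟩⟩
      intro f hf
      refine Eventually.of_forall fun n => ?_
      have : f n ≤ ∑ f ∈ hfin.toFinset, f n :=
        Finset.single_le_sum (f := fun f : Ω → ℕ => f n) (fun _ _ => Nat.zero_le _)
          (hfin.mem_toFinset.2 hf)
      show f n ≠ (∑ f ∈ hfin.toFinset, f n) + 1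
      omega
    · obtain ⟨i, hi⟩ := hD
      have : Infinite E := Set.infinite_coe_iff.2 hfin
      let e : ℕ ↪ E := Infinite.natEmbedding E
      refine ⟨G ⊓ comap (p i) cofinite, inf_le_left.trans hGF, D ∪ {i}, Set.subset_union_left, ?_,
        ?_, Or.inr ⟨fun n => (e (p i n) : Ω → ℕ) n, ?_⟩⟩
      · exact (Set.finite_singleton i).subset (by
          intro j hj; rcases hj.1 with h | h; exact absurd h hj.2; exact h)
      · intro s' hs' c' hev
        rw [Filter.Eventually, Filter.mem_inf_iff_superset] at hev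
        obtain ⟨T, hT, V, hV, hTV⟩ := hev
        rw [Filter.mem_comap] at hV
        obtain ⟨V', hV', hVV⟩ := hV
        obtain ⟨w, hw⟩ : ∃ w, w ∈ V' := by
          by_contra hcon
          push Not at hcon
          have h2 : V'ᶜ = Set.univ := by
            ext x
            simp [hcon x]
          rw [Filter.mem_cofinite, h2] at hV'
          exact Set.infinite_univ hV'
        refine hG (insert i s') ?_ (fun j => if j = i then w else c' j) ?_
        · intro j hj
          rcases Finset.mem_insert.1 hj with h | h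
          · rw [h]; exact hi
          · exact fun h' => hs' j h (Or.inl h')
        · filter_upwards [hT] with n hn hall
          have h3 : n ∈ T ∩ V := by
            refine ⟨hn, hVV ?_⟩
            have := hall i (Finset.mem_insert_self _ _)
            rw [if_pos rfl] at this
            rw [Set.mem_preimage, this]
            exact hw
          refine hTV h3 ?_
          intro j hj
          have := hall j (Finset.mem_insert_of_mem hj)
          have hne : j ≠ i := fun h => hs' j hj (Or.inr h)
          rwa [if_neg hne] at this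
      · intro f hf
        have hA : ∀ᶠ n in G, ¬ (f n = (e (p i n) : Ω → ℕ) n ∧ (e (p i n) : Ω → ℕ) ≠ f) := by
          rcases hdense (fun n => f n = (e (p i n) : Ω → ℕ) n ∧ (e (p i n) : Ω → ℕ) ≠ f) with
            h2 | ⟨s, hs, c, hc⟩
          · exact h2
          · exfalso
            -- extend `s` by `i`
            have hfr := hG (insert i s) (by
              intro j hj
              rcases Finset.mem_insert.1 hj with h | h
              · rw [h]; exact hi
              · exact hs j h) c
            obtain ⟨n, hn1, hn2⟩ := (hfr.and_eventually hc).exists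
            have h3 := hn2 (fun j hj => hn1 j (Finset.mem_insert_of_mem hj))
            have h4 : p i n = c i := hn1 i (Finset.mem_insert_self _ _)
            rw [h4] at h3
            have h5 : ∀ᶠ n in G, (e (c i) : Ω → ℕ) n ≠ f n := by
              have := h1 _ (e (c i)).2 f hf h3.2
              exact this
            obtain ⟨m, hm1, hm2, hm3⟩ := (hfr.and_eventually (hc.and h5)).exists
            have h6 := hm2 (fun j hj => hm1 j (Finset.mem_insert_of_mem hj))
            have h7 : p i m = c i := hm1 i (Finset.mem_insert_self _ _)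
            rw [h7] at h6
            exact hm3 h6.1.symm
        have hB : ∀ᶠ n in comap (p i) cofinite, (e (p i n) : Ω → ℕ) ≠ f := by
          rw [Filter.eventually_comap]
          have h2 : {v : ℕ | (e v : Ω → ℕ) = f}.Finite := by
            apply Set.Subsingleton.finite
            intro a ha b hb
            exact e.injective (Subtype.ext (ha.trans hb.symm))
          have h3 : ∀ᶠ v in cofinite, ¬ (e v : Ω → ℕ) = f := h2.compl_mem_cofinite
          filter_upwards [h3] with v hv n hn
          rw [hn]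
          exact hv
        have hA' := hA.filter_mono (inf_le_left : G ⊓ comap (p i) cofinite ≤ G)
        have hB' := hB.filter_mono (inf_le_right : G ⊓ comap (p i) cofinite ≤ _)
        filter_upwards [hA', hB'] with n hn1 hn2 hn3
        exact hn1 ⟨hn3, hn2⟩

end Pool.Agent.Q302.ME
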